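import Mathlib

set_option autoImplicit false

/-!
# The mean of the sum of proper divisors over short intervals
-/

open Finset

namespace Pool.Agent.U762.AQ

/-- the sum of the proper divisors -/
def s (m : ℕ) : ℕ := ∑ d ∈ m.properDivisors, d

theorem s_le_sq (m : ℕ) : s m ≤ m ^ 2 := by
  unfold s
  have h1 : ∑ d ∈ m.properDivisors, d ≤ ∑ d ∈ range m, m := by
    calc ∑ d ∈ m.properDivisors, d ≤ ∑ d ∈ m.properDivisors, m :=
          Finset.sum_le_sum fun d hd => (Nat.mem_properDivisors.1 hd).2.le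
      _ ≤ ∑ d ∈ range m, m := Finset.sum_le_sum_of_subset fun d hd =>
          Finset.mem_range.2 (Nat.mem_properDivisors.1 hd).2
  refine h1.trans (le_of_eq ?_)
  rw [Finset.sum_const, Finset.card_range, smul_eq_mul, sq]

theorem s_le {m N : ℕ} (hm : m ≤ N) :
    (s m : ℝ) ≤ ∑ k ∈ (Icc 2 N).filter (fun k => k ∣ m), (N : ℝ) / k := by
  unfold s
  rw [Nat.cast_sum]
  have hN : ∀ d ∈ m.properDivisors, (d : ℝ) ≤ (N : ℝ) / ((m / d : ℕ) : ℝ) := by
    intro d hd
    obtain ⟨h1, h2⟩ := Nat.mem_properDivisors.1 hd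
    have hd0 : 0 < d := Nat.pos_of_dvd_of_pos h1 (by omega)
    have hq : 0 < m / d := Nat.div_pos h2.le hd0
    rw [le_div_iff₀ (by exact_mod_cast hq)]
    have : d * (m / d) = m := Nat.mul_div_cancel' h1
    calc (d : ℝ) * ((m / d : ℕ) : ℝ) = ((d * (m / d) : ℕ) : ℝ) := by push_cast; ring
      _ = m := by rw [this]
      _ ≤ N := by exact_mod_cast hm
  refine (Finset.sum_le_sum hN).trans ?_
  have hinj : Set.InjOn (fun d => m / d) (m.properDivisors : Set ℕ) := by
    intro d hd e he hde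
    obtain ⟨h1, h2⟩ := Nat.mem_properDivisors.1 (Finset.mem_coe.1 hd)
    obtain ⟨h3, h4⟩ := Nat.mem_properDivisors.1 (Finset.mem_coe.1 he)
    have e1 : d * (m / d) = m := Nat.mul_div_cancel' h1
    have e2 : e * (m / e) = m := Nat.mul_div_cancel' h3
    have hd0 : 0 < d := Nat.pos_of_dvd_of_pos h1 (by omega)
    have hq : 0 < m / d := Nat.div_pos h2.le hd0
    simp only at hde
    rw [← hde] at e2
    exact Nat.eq_of_mul_eq_mul_right hq (e1.trans e2.symm)
  rw [← Finset.sum_image (f := fun k : ℕ => (N : ℝ) / (k : ℝ)) hinj]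
  refine Finset.sum_le_sum_of_subset_of_nonneg ?_ (fun _ _ _ => by positivity)
  intro k hk
  obtain ⟨d, hd, rfl⟩ := Finset.mem_image.1 hk
  obtain ⟨h1, h2⟩ := Nat.mem_properDivisors.1 hd
  have hd0 : 0 < d := Nat.pos_of_dvd_of_pos h1 (by omega)
  refine Finset.mem_filter.2 ⟨Finset.mem_Icc.2 ⟨?_, (Nat.div_le_self _ _).trans hm⟩, Nat.div_dvd_of_dvd h1⟩
  have e1 : d * (m / d) = m := Nat.mul_div_cancel' h1
  by_contra hlt
  have : m / d ≤ 1 := by omega
  have : d * (m / d) ≤ d * 1 := Nat.mul_le_mul_left _ this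
  omega

theorem count_le (a L k : ℕ) (hk : 0 < k) :
    (((range L).filter fun u => k ∣ a + u).card : ℝ) ≤ (L : ℝ) / k + 2 := by
  have h1 : ((range L).filter fun u => k ∣ a + u).card ≤ (Icc (a / k) ((a + L) / k)).card := by
    refine Finset.card_le_card_of_injOn (fun u => (a + u) / k) ?_ ?_
    · intro u hu
      have hu' := Finset.mem_range.1 (Finset.mem_filter.1 (Finset.mem_coe.1 hu)).1
      exact Finset.mem_coe.2 (Finset.mem_Icc.2 ⟨Nat.div_le_div_right (by omega), Nat.div_le_div_right (by omega)⟩)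
    · intro u hu v hv huv
      have h2 := (Finset.mem_filter.1 (Finset.mem_coe.1 hu)).2
      have h3 := (Finset.mem_filter.1 (Finset.mem_coe.1 hv)).2
      have e1 := Nat.mul_div_cancel' h2
      have e2 := Nat.mul_div_cancel' h3
      simp only at huv
      rw [huv] at e1
      omega
  have h2 : (a + L) / k ≤ a / k + L / k + 1 := by
    have e1 := Nat.div_add_mod a k
    have e2 := Nat.div_add_mod L k
    have m1 := Nat.mod_lt a hk
    have m2 := Nat.mod_lt L hk
    have : (a + L) / k < a / k + L / k + 2 := by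
      rw [Nat.div_lt_iff_lt_mul hk]
      nlinarith
    omega
  rw [Nat.card_Icc] at h1
  have h3 : ((range L).filter fun u => k ∣ a + u).card ≤ L / k + 2 := by
    refine h1.trans ?_
    clear h1
    revert h2
    generalize (a + L) / k = p
    generalize a / k = q
    generalize L / k = r
    intro h2
    omega
  calc (((range L).filter fun u => k ∣ a + u).card : ℝ) ≤ ((L / k + 2 : ℕ) : ℝ) := by exact_mod_cast h3
    _ = ((L / k : ℕ) : ℝ) + 2 := by push_cast; ring
    _ ≤ (L : ℝ) / k + 2 := by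
        have := @Nat.cast_div_le ℝ _ _ _ L k
        linarith

theorem inv_sq (N : ℕ) (hN : 2 ≤ N) : ∑ k ∈ Icc 2 N, (1 : ℝ) / (k : ℝ) ^ 2 ≤ 3 / 4 - 1 / N := by
  induction N, hN using Nat.le_induction with
  | base => norm_num
  | succ n hn ih =>
    rw [Finset.sum_Icc_succ_top (by omega)]
    have hn0 : (0 : ℝ) < n := by exact_mod_cast (by omega : 0 < n)
    have h1 : (1 : ℝ) / ((n + 1 : ℕ) : ℝ) ^ 2 ≤ 1 / n - 1 / ((n + 1 : ℕ) : ℝ) := by
      push_cast
      rw [div_sub_div _ _ hn0.ne' (by positivity), div_le_div_iff₀ (by positivity) (by positivity)]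
      nlinarith
    linarith

theorem inv_sum (N : ℕ) : ∑ k ∈ Icc 2 N, (1 : ℝ) / (k : ℝ) ≤ 1 + Real.log N := by
  have h := harmonic_le_one_add_log N
  have e : ((harmonic N : ℚ) : ℝ) = ∑ k ∈ Icc 1 N, (1 : ℝ) / (k : ℝ) := by
    rw [harmonic_eq_sum_Icc]
    push_cast
    simp
  rw [e] at h
  refine le_trans (Finset.sum_le_sum_of_subset_of_nonneg ?_ (fun _ _ _ => by positivity)) h
  intro k hk
  rw [Finset.mem_Icc] at hk ⊢
  omega

/-- the mean of `s` over the interval `[a, a + L)` -/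
theorem mean (a L : ℕ) (h2 : 2 ≤ a + L) : ∑ u ∈ range L, (s (a + u) : ℝ) ≤
    ((a + L : ℕ) : ℝ) * (3 / 4 * L + 2 * (1 + Real.log ((a + L : ℕ) : ℝ))) := by
  set N := a + L with hN
  have h1 : ∑ u ∈ range L, (s (a + u) : ℝ) ≤
      ∑ u ∈ range L, ∑ k ∈ (Icc 2 N).filter (fun k => k ∣ a + u), (N : ℝ) / k :=
    Finset.sum_le_sum fun u hu => s_le (by have := Finset.mem_range.1 hu; omega)
  refine h1.trans ?_
  have h3 : ∑ u ∈ range L, ∑ k ∈ (Icc 2 N).filter (fun k => k ∣ a + u), (N : ℝ) / k =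
      ∑ k ∈ Icc 2 N, (N : ℝ) / k * (((range L).filter fun u => k ∣ a + u).card : ℝ) := by
    simp_rw [Finset.sum_filter]
    rw [Finset.sum_comm]
    refine Finset.sum_congr rfl fun k _ => ?_
    rw [← Finset.sum_filter, Finset.sum_const, nsmul_eq_mul]
    ring
  rw [h3]
  have h4 : ∑ k ∈ Icc 2 N, (N : ℝ) / k * (((range L).filter fun u => k ∣ a + u).card : ℝ) ≤
      ∑ k ∈ Icc 2 N, ((N : ℝ) * L * (1 / (k : ℝ) ^ 2) + 2 * N * (1 / (k : ℝ))) := by
    refine Finset.sum_le_sum fun k hk => ?_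
    have hk0 : 0 < k := by have := (Finset.mem_Icc.1 hk).1; omega
    have hk1 : (0 : ℝ) < k := by exact_mod_cast hk0
    calc (N : ℝ) / k * (((range L).filter fun u => k ∣ a + u).card : ℝ) ≤ (N : ℝ) / k * ((L : ℝ) / k + 2) :=
          mul_le_mul_of_nonneg_left (count_le a L k hk0) (by positivity)
      _ = (N : ℝ) * L * (1 / (k : ℝ) ^ 2) + 2 * N * (1 / (k : ℝ)) := by
          field_simp
  refine h4.trans ?_
  rw [Finset.sum_add_distrib, ← Finset.mul_sum, ← Finset.mul_sum]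
  have h5 := inv_sq N h2
  have h6 := inv_sum N
  have h7 : (0 : ℝ) ≤ 1 / N := by positivity
  have hNL : (0 : ℝ) ≤ (N : ℝ) * L := by positivity
  have hN2 : (0 : ℝ) ≤ 2 * (N : ℝ) := by positivity
  have h8 : ∑ k ∈ Icc 2 N, (1 : ℝ) / (k : ℝ) ^ 2 ≤ 3 / 4 := by linarith
  calc (N : ℝ) * L * ∑ k ∈ Icc 2 N, (1 : ℝ) / (k : ℝ) ^ 2 + 2 * N * ∑ k ∈ Icc 2 N, (1 : ℝ) / (k : ℝ)
      ≤ (N : ℝ) * L * (3 / 4) + 2 * N * (1 + Real.log N) :=
        add_le_add (mul_le_mul_of_nonneg_left h8 hNL) (mul_le_mul_of_nonneg_left h6 hN2)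
    _ = (N : ℝ) * (3 / 4 * L + 2 * (1 + Real.log N)) := by ring

end Pool.Agent.U762.AQ
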