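import Pool.Agent.U762.AQ.Fin

set_option autoImplicit false

/-!
# The same for all maps which are at most `s`
-/

open Finset MeasureTheory Filter
open scoped ENNReal

namespace Pool.Agent.U762.AQ

/-- the potential -/
noncomputable def potf (f : ℕ → ℕ) (x : ℕ) : ℝ := f x + x / 20 + 1

theorem potf_nonneg (f : ℕ → ℕ) (x : ℕ) : 0 ≤ potf f x := by unfold potf; positivity

theorem one_le_potf (f : ℕ → ℕ) (x : ℕ) : 1 ≤ potf f x := by
  unfold potf
  have : (0 : ℝ) ≤ (f x : ℝ) + x / 20 := by positivity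
  linarith

theorem sumf_eq (f : ℕ → ℕ) (x n : ℕ) : ∑ u ∈ range n, unif n {u} * ENNReal.ofReal (potf f (f x + u)) =
    (n : ℝ≥0∞)⁻¹ * ENNReal.ofReal (∑ u ∈ range n, potf f (f x + u)) := by
  rw [ENNReal.ofReal_sum_of_nonneg (fun _ _ => potf_nonneg _ _), Finset.mul_sum]
  exact Finset.sum_congr rfl fun u hu => by rw [unif_single hu]

/-- the drift -/
theorem driftf {f : ℕ → ℕ} (hf : ∀ n, f n ≤ s n) {x L : ℕ} (hx : 100 ≤ x) (h1 : 100 * Real.log x ≤ L) (h2 : (L : ℝ) ≤ x / 20) :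
    ∑ u ∈ range L, potf f (f x + u) ≤ (L : ℝ) * (19 / 20 * potf f x) := by
  have hx1 : (100 : ℝ) ≤ x := by exact_mod_cast hx
  have hlog1 : (1 : ℝ) ≤ Real.log x := by
    rw [Real.le_log_iff_exp_le (by linarith)]
    have := Real.exp_one_lt_d9
    linarith
  have hL1 : (100 : ℝ) ≤ L := by linarith
  have hL2 : 2 ≤ f x + L := by
    have : (100 : ℕ) ≤ L := by exact_mod_cast hL1
    omega
  have hm : ∑ u ∈ range L, (f (f x + u) : ℝ) ≤
      ((f x + L : ℕ) : ℝ) * (3 / 4 * L + 2 * (1 + Real.log ((f x + L : ℕ) : ℝ))) :=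
    (Finset.sum_le_sum fun u _ => by exact_mod_cast hf (f x + u)).trans (mean (f x) L hL2)
  have hlogN : Real.log ((f x + L : ℕ) : ℝ) ≤ 3 * Real.log x := by
    have h3 : ((f x + L : ℕ) : ℝ) ≤ (x : ℝ) ^ 3 := by
      have h4 : (f x : ℝ) ≤ (x : ℝ) ^ 2 := by exact_mod_cast (hf x).trans (s_le_sq x)
      push_cast
      nlinarith
    calc Real.log ((f x + L : ℕ) : ℝ) ≤ Real.log ((x : ℝ) ^ 3) :=
          Real.log_le_log (by exact_mod_cast (by omega : 0 < f x + L)) h3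
      _ = 3 * Real.log x := by rw [Real.log_pow]; norm_num
  have hN0 : (0 : ℝ) ≤ ((f x + L : ℕ) : ℝ) := Nat.cast_nonneg _
  have h5 : 3 / 4 * (L : ℝ) + 2 * (1 + Real.log ((f x + L : ℕ) : ℝ)) ≤ 17 / 20 * L := by
    nlinarith
  have h6 := hm.trans (mul_le_mul_of_nonneg_left h5 hN0)
  have h7 : ∑ u ∈ range L, potf f (f x + u) ≤
      ((f x + L : ℕ) : ℝ) * (17 / 20 * L) + (L : ℝ) * (((f x + L : ℕ) : ℝ) / 20 + 1) := by
    unfold potf
    have h8 : ∑ u ∈ range L, ((f (f x + u) : ℝ) + ((f x + u : ℕ) : ℝ) / 20 + 1) =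
        ∑ u ∈ range L, (f (f x + u) : ℝ) + ∑ u ∈ range L, (((f x + u : ℕ) : ℝ) / 20 + 1) := by
      rw [← Finset.sum_add_distrib]
      exact Finset.sum_congr rfl fun _ _ => by ring
    rw [h8]
    refine add_le_add h6 ?_
    calc ∑ u ∈ range L, (((f x + u : ℕ) : ℝ) / 20 + 1) ≤ ∑ u ∈ range L, (((f x + L : ℕ) : ℝ) / 20 + 1) := by
          refine Finset.sum_le_sum fun u hu => ?_
          have : ((f x + u : ℕ) : ℝ) ≤ ((f x + L : ℕ) : ℝ) := by
            exact_mod_cast Nat.add_le_add_left (Finset.mem_range.1 hu).le _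
          linarith
      _ = (L : ℝ) * (((f x + L : ℕ) : ℝ) / 20 + 1) := by
          rw [Finset.sum_const, Finset.card_range, nsmul_eq_mul]
  refine h7.trans ?_
  unfold potf
  have hs0 : (0 : ℝ) ≤ (f x : ℝ) := Nat.cast_nonneg _
  have e : ((f x + L : ℕ) : ℝ) * (17 / 20 * L) + (L : ℝ) * (((f x + L : ℕ) : ℝ) / 20 + 1) =
      (L : ℝ) * (9 / 10 * ((f x : ℝ) + L) + 1) := by push_cast; ring
  rw [e]
  refine mul_le_mul_of_nonneg_left ?_ (by linarith)
  nlinarith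

theorem ofRealf_step {f : ℕ → ℕ} {x L : ℕ} (hL : 1 ≤ L) {b : ℝ} (hb : 0 ≤ b)
    (h : ∑ u ∈ range L, potf f (f x + u) ≤ (L : ℝ) * b) :
    ∑ u ∈ range L, unif L {u} * ENNReal.ofReal (potf f (f x + u)) ≤ ENNReal.ofReal b := by
  rw [sumf_eq]
  calc (L : ℝ≥0∞)⁻¹ * ENNReal.ofReal (∑ u ∈ range L, potf f (f x + u)) ≤ (L : ℝ≥0∞)⁻¹ * ENNReal.ofReal ((L : ℝ) * b) :=
        mul_le_mul' le_rfl (ENNReal.ofReal_le_ofReal h)
    _ = (L : ℝ≥0∞)⁻¹ * ((L : ℝ≥0∞) * ENNReal.ofReal b) := by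
        rw [ENNReal.ofReal_mul (Nat.cast_nonneg _), ENNReal.ofReal_natCast]
    _ = ENNReal.ofReal b := by
        rw [← mul_assoc, ENNReal.inv_mul_cancel (by exact_mod_cast (by omega : L ≠ 0)) (ENNReal.natCast_ne_top L),
          one_mul]

/-- **The same for all maps which are at most `s`.** -/
theorem finf (f : ℕ → ℕ) (hf : ∀ n, f n ≤ s n) (L : ℕ → ℕ) (hL : ∀ n, 1 ≤ L n) (n₀ : ℕ) (h1 : ∀ n, n₀ ≤ n → 100 * Real.log n ≤ L n)
    (h2 : ∀ n, n₀ ≤ n → (L n : ℝ) ≤ n / 20) :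
    ∀ᵐ ω ∂(Measure.infinitePi fun n => unif (L n)), ∃ C : ℕ, ∀ x : ℕ,
      (Set.range fun i : ℕ => (stp f ω)^[i] x).Finite ∧
      ((Set.range fun i : ℕ => (stp f ω)^[i] x).ncard : ℝ) ≤ 100 * Real.log (x + 2) + C := by
  haveI : ∀ n, IsProbabilityMeasure (unif (L n)) := fun n => unif_prob (hL n)
  set M : ℕ := max n₀ 100 with hM
  set V : ℕ → ℝ≥0∞ := fun x => ENNReal.ofReal (potf f x) with hV
  set lam : ℝ≥0∞ := ENNReal.ofReal (19 / 20) with hlam
  set EV : ℕ → ℝ≥0∞ := fun x => ∑ u ∈ range (L x), unif (L x) {u} * V (f x + u) with hEV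
  have hV1 : ∀ x, 1 ≤ V x := by
    intro x
    rw [hV, ← ENNReal.ofReal_one]
    exact ENNReal.ofReal_le_ofReal (one_le_potf f x)
  have hd : ∀ x, M ≤ x → EV x ≤ lam * V x := by
    intro x hx
    have hx1 : n₀ ≤ x := (le_max_left _ _).trans hx
    have hx2 : 100 ≤ x := (le_max_right _ _).trans hx
    have h3 := ofRealf_step (hL x) (mul_nonneg (by norm_num) (potf_nonneg f x)) (driftf hf hx2 (h1 x hx1) (h2 x hx1))
    rw [ENNReal.ofReal_mul (by norm_num)] at h3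
    exact h3
  have hEVtop : ∀ x, EV x ≠ ∞ := by
    intro x
    refine ENNReal.sum_ne_top.2 fun u _ => ?_
    exact ENNReal.mul_ne_top (measure_ne_top _ _) ENNReal.ofReal_ne_top
  set κ : ℝ≥0∞ := 1 + ∑ x ∈ range M, 2 * EV x with hκ
  have hκ1 : 1 ≤ κ := le_self_add
  have hκtop : κ ≠ ∞ := by
    refine ENNReal.add_ne_top.2 ⟨ENNReal.one_ne_top, ENNReal.sum_ne_top.2 fun x _ => ?_⟩
    exact ENNReal.mul_ne_top (by norm_num) (hEVtop x)
  have hlam2 : 1 ≤ 2 * lam := by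
    rw [hlam, show (2 : ℝ≥0∞) = ENNReal.ofReal 2 by simp, ← ENNReal.ofReal_mul (by norm_num), ← ENNReal.ofReal_one]
    exact ENNReal.ofReal_le_ofReal (by norm_num)
  have hd2 : ∀ x, EV x ≤ κ * lam * V x := by
    intro x
    by_cases hx : M ≤ x
    · calc EV x ≤ lam * V x := hd x hx
        _ = 1 * (lam * V x) := (one_mul _).symm
        _ ≤ κ * (lam * V x) := mul_le_mul' hκ1 le_rfl
        _ = κ * lam * V x := by rw [mul_assoc]
    · have h3 : 2 * EV x ≤ κ := by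
        refine le_trans ?_ le_add_self
        exact Finset.single_le_sum (f := fun x => 2 * EV x) (fun _ _ => zero_le) (Finset.mem_range.2 (not_le.1 hx))
      calc EV x = EV x * 1 := (mul_one _).symm
        _ ≤ EV x * (2 * lam) := mul_le_mul' le_rfl hlam2
        _ = (2 * EV x) * lam * 1 := by ring
        _ ≤ κ * lam * V x := mul_le_mul' (mul_le_mul' h3 le_rfl) (hV1 x)
  have hP := dist_le f (fun n => unif (L n)) L (fun n => unif_supp (L n)) M V hV1 lam κ hκ1 hd hd2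
  set ℓ : ℕ → ℕ := fun x => ⌈80 * Real.log (x + 2)⌉₊ with hℓ
  have hbound : ∀ x : ℕ, (Measure.infinitePi fun n => unif (L n)) {ω | Dist f (ℓ x) x ω} ≤
      κ ^ M * ENNReal.ofReal (2 * ((x : ℝ) + 2) ^ (-2 : ℤ)) := by
    intro x
    refine (hP (ℓ x) x).trans ?_
    rw [mul_assoc]
    refine mul_le_mul' le_rfl ?_
    rw [hlam, hV, ← ENNReal.ofReal_pow (by norm_num), ← ENNReal.ofReal_mul (by positivity)]
    refine ENNReal.ofReal_le_ofReal ?_
    have hx2 : (0 : ℝ) < (x : ℝ) + 2 := by positivity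
    have e1 : (19 / 20 : ℝ) ≤ Real.exp (-1 / 20) := by
      have := Real.add_one_le_exp (-1 / 20 : ℝ)
      linarith
    have e2 : (19 / 20 : ℝ) ^ (ℓ x) ≤ ((x : ℝ) + 2) ^ (-4 : ℤ) := by
      calc (19 / 20 : ℝ) ^ (ℓ x) ≤ (Real.exp (-1 / 20)) ^ (ℓ x) := pow_le_pow_left₀ (by norm_num) e1 _
        _ = Real.exp ((ℓ x : ℝ) * (-1 / 20)) := by rw [← Real.exp_nat_mul]
        _ ≤ Real.exp (Real.log ((x : ℝ) + 2) * (-4)) := by
            refine Real.exp_le_exp.2 ?_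
            have h3 : 80 * Real.log ((x : ℝ) + 2) ≤ (ℓ x : ℝ) := Nat.le_ceil _
            linarith
        _ = ((x : ℝ) + 2) ^ (-4 : ℤ) := by
            rw [← Real.rpow_intCast, Real.rpow_def_of_pos hx2]
            norm_num
    have e3 : potf f x ≤ 2 * ((x : ℝ) + 2) ^ (2 : ℤ) := by
      unfold potf
      have h4 : (f x : ℝ) ≤ (x : ℝ) ^ 2 := by exact_mod_cast (hf x).trans (s_le_sq x)
      have h5 : (0 : ℝ) ≤ (x : ℝ) := Nat.cast_nonneg _
      have e : ((x : ℝ) + 2) ^ (2 : ℤ) = ((x : ℝ) + 2) ^ (2 : ℕ) := by norm_cast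
      rw [e]
      nlinarith
    calc (19 / 20 : ℝ) ^ (ℓ x) * potf f x ≤ ((x : ℝ) + 2) ^ (-4 : ℤ) * (2 * ((x : ℝ) + 2) ^ (2 : ℤ)) :=
          mul_le_mul e2 e3 (potf_nonneg f x) (by positivity)
      _ = 2 * ((x : ℝ) + 2) ^ (-2 : ℤ) := by
          rw [show (-2 : ℤ) = -4 + 2 by norm_num, zpow_add₀ hx2.ne']
          ring
  have hsum : ∑' x : ℕ, (Measure.infinitePi fun n => unif (L n)) {ω | Dist f (ℓ x) x ω} ≠ ∞ := by
    refine ne_top_of_le_ne_top ?_ (ENNReal.tsum_le_tsum hbound)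
    rw [ENNReal.tsum_mul_left]
    refine ENNReal.mul_ne_top (ENNReal.pow_ne_top hκtop) ?_
    have hs : Summable fun x : ℕ => 2 * ((x : ℝ) + 2) ^ (-2 : ℤ) := by
      have h3 : Summable fun n : ℕ => 1 / (n : ℝ) ^ 2 := Real.summable_one_div_nat_pow.2 (by norm_num)
      have h4 := ((summable_nat_add_iff 2).2 h3).mul_left 2
      refine h4.congr fun n => ?_
      rw [zpow_neg]
      push_cast
      norm_cast
      rw [one_div]
    exact hs.tsum_ofReal_ne_top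
  filter_upwards [ae_eventually_notMem hsum] with ω hω
  obtain ⟨N, hN⟩ := eventually_atTop.1 hω
  obtain ⟨C, hC⟩ := det (f := f) (ω := ω) (ℓ := ℓ) (N := N) (fun x hx => hN x hx)
  refine ⟨C + 1, fun x => ⟨(hC x).1, ?_⟩⟩
  have h3 : ((Set.range fun i : ℕ => (stp f ω)^[i] x).ncard : ℝ) ≤ (ℓ x : ℝ) + C := by exact_mod_cast (hC x).2
  have h4 : (0 : ℝ) ≤ Real.log ((x : ℝ) + 2) := Real.log_nonneg (by have : (0 : ℝ) ≤ x := Nat.cast_nonneg _; linarith)
  have h5 : (ℓ x : ℝ) < 80 * Real.log ((x : ℝ) + 2) + 1 := Nat.ceil_lt_add_one (by positivity)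
  push_cast
  linarith

end Pool.Agent.U762.AQ
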