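import Pool.Agent.U762.AQ.Fin

set_option autoImplicit false

/-!
# Randomly perturbed juggler sequences are finite
-/

open Finset MeasureTheory Filter
open scoped ENNReal

namespace Pool.Agent.U762.AQ

theorem ofRealg_step {f : ℕ → ℕ} {V : ℕ → ℝ} (hV : ∀ x, 0 ≤ V x) {x L : ℕ} (hL : 1 ≤ L) {b : ℝ}
    (h : ∑ u ∈ range L, V (f x + u) ≤ (L : ℝ) * b) :
    ∑ u ∈ range L, unif L {u} * ENNReal.ofReal (V (f x + u)) ≤ ENNReal.ofReal b := by
  have e : ∑ u ∈ range L, unif L {u} * ENNReal.ofReal (V (f x + u)) =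
      (L : ℝ≥0∞)⁻¹ * ENNReal.ofReal (∑ u ∈ range L, V (f x + u)) := by
    rw [ENNReal.ofReal_sum_of_nonneg (fun _ _ => hV _), Finset.mul_sum]
    exact Finset.sum_congr rfl fun u hu => by rw [unif_single hu]
  rw [e]
  calc (L : ℝ≥0∞)⁻¹ * ENNReal.ofReal (∑ u ∈ range L, V (f x + u)) ≤ (L : ℝ≥0∞)⁻¹ * ENNReal.ofReal ((L : ℝ) * b) :=
        mul_le_mul' le_rfl (ENNReal.ofReal_le_ofReal h)
    _ = (L : ℝ≥0∞)⁻¹ * ((L : ℝ≥0∞) * ENNReal.ofReal b) := by
        rw [ENNReal.ofReal_mul (Nat.cast_nonneg _), ENNReal.ofReal_natCast]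
    _ = ENNReal.ofReal b := by
        rw [← mul_assoc, ENNReal.inv_mul_cancel (by exact_mod_cast (by omega : L ≠ 0)) (ENNReal.natCast_ne_top L),
          one_mul]

/-- **The general theorem.** -/
theorem gen (f : ℕ → ℕ) (W : ℕ → ℝ) (hW1 : ∀ x, 1 ≤ W x) (hW2 : ∀ x : ℕ, W x ≤ 2 * ((x : ℝ) + 2) ^ (2 : ℕ))
    (L : ℕ → ℕ) (hL : ∀ n, 1 ≤ L n) (M : ℕ)
    (hdr : ∀ x, M ≤ x → ∑ u ∈ range (L x), W (f x + u) ≤ (L x : ℝ) * (49 / 50 * W x)) :
    ∀ᵐ ω ∂(Measure.infinitePi fun n => unif (L n)), ∃ C : ℕ, ∀ x : ℕ,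
      (Set.range fun i : ℕ => (stp f ω)^[i] x).Finite ∧
      ((Set.range fun i : ℕ => (stp f ω)^[i] x).ncard : ℝ) ≤ 200 * Real.log (x + 2) + C := by
  haveI : ∀ n, IsProbabilityMeasure (unif (L n)) := fun n => unif_prob (hL n)
  have hW0 : ∀ x, 0 ≤ W x := fun x => by linarith [hW1 x]
  set V : ℕ → ℝ≥0∞ := fun x => ENNReal.ofReal (W x) with hV
  set lam : ℝ≥0∞ := ENNReal.ofReal (49 / 50) with hlam
  set EV : ℕ → ℝ≥0∞ := fun x => ∑ u ∈ range (L x), unif (L x) {u} * V (f x + u) with hEV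
  have hV1 : ∀ x, 1 ≤ V x := by
    intro x
    rw [hV, ← ENNReal.ofReal_one]
    exact ENNReal.ofReal_le_ofReal (hW1 x)
  have hd : ∀ x, M ≤ x → EV x ≤ lam * V x := by
    intro x hx
    have h3 := ofRealg_step hW0 (hL x) (hdr x hx)
    rw [ENNReal.ofReal_mul (by norm_num)] at h3
    exact h3
  have hEVtop : ∀ x, EV x ≠ ∞ := by
    intro x
    refine ENNReal.sum_ne_top.2 fun u _ => ?_
    exact ENNReal.mul_ne_top (measure_ne_top _ _) ENNReal.ofReal_ne_top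
  set κ : ℝ≥0∞ := 1 + ∑ x ∈ range M, 2 * EV x with hκ
  have hκ1 : 1 ≤ κ := le_self_add
  have hκtop : κ ≠ ∞ := by
    refine ENNReal.add_ne_top.2 ⟨ENNReal.one_ne_top, ENNReal.sum_ne_top.2 fun x _ => ?_⟩
    exact ENNReal.mul_ne_top (by norm_num) (hEVtop x)
  have hlam2 : 1 ≤ 2 * lam := by
    rw [hlam, show (2 : ℝ≥0∞) = ENNReal.ofReal 2 by simp, ← ENNReal.ofReal_mul (by norm_num), ← ENNReal.ofReal_one]
    exact ENNReal.ofReal_le_ofReal (by norm_num)
  have hd2 : ∀ x, EV x ≤ κ * lam * V x := by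
    intro x
    by_cases hx : M ≤ x
    · calc EV x ≤ lam * V x := hd x hx
        _ = 1 * (lam * V x) := (one_mul _).symm
        _ ≤ κ * (lam * V x) := mul_le_mul' hκ1 le_rfl
        _ = κ * lam * V x := by rw [mul_assoc]
    · have h3 : 2 * EV x ≤ κ := by
        refine le_trans ?_ le_add_self
        exact Finset.single_le_sum (f := fun x => 2 * EV x) (fun _ _ => zero_le) (Finset.mem_range.2 (not_le.1 hx))
      calc EV x = EV x * 1 := (mul_one _).symm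
        _ ≤ EV x * (2 * lam) := mul_le_mul' le_rfl hlam2
        _ = (2 * EV x) * lam * 1 := by ring
        _ ≤ κ * lam * V x := mul_le_mul' (mul_le_mul' h3 le_rfl) (hV1 x)
  have hP := dist_le f (fun n => unif (L n)) L (fun n => unif_supp (L n)) M V hV1 lam κ hκ1 hd hd2
  set ℓ : ℕ → ℕ := fun x => ⌈200 * Real.log (x + 2)⌉₊ with hℓ
  have hbound : ∀ x : ℕ, (Measure.infinitePi fun n => unif (L n)) {ω | Dist f (ℓ x) x ω} ≤
      κ ^ M * ENNReal.ofReal (2 * ((x : ℝ) + 2) ^ (-2 : ℤ)) := by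
    intro x
    refine (hP (ℓ x) x).trans ?_
    rw [mul_assoc]
    refine mul_le_mul' le_rfl ?_
    rw [hlam, hV, ← ENNReal.ofReal_pow (by norm_num), ← ENNReal.ofReal_mul (by positivity)]
    refine ENNReal.ofReal_le_ofReal ?_
    have hx2 : (0 : ℝ) < (x : ℝ) + 2 := by positivity
    have e1 : (49 / 50 : ℝ) ≤ Real.exp (-1 / 50) := by
      have := Real.add_one_le_exp (-1 / 50 : ℝ)
      linarith
    have e2 : (49 / 50 : ℝ) ^ (ℓ x) ≤ ((x : ℝ) + 2) ^ (-4 : ℤ) := by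
      calc (49 / 50 : ℝ) ^ (ℓ x) ≤ (Real.exp (-1 / 50)) ^ (ℓ x) := pow_le_pow_left₀ (by norm_num) e1 _
        _ = Real.exp ((ℓ x : ℝ) * (-1 / 50)) := by rw [← Real.exp_nat_mul]
        _ ≤ Real.exp (Real.log ((x : ℝ) + 2) * (-4)) := by
            refine Real.exp_le_exp.2 ?_
            have h3 : 200 * Real.log ((x : ℝ) + 2) ≤ (ℓ x : ℝ) := Nat.le_ceil _
            linarith
        _ = ((x : ℝ) + 2) ^ (-4 : ℤ) := by
            rw [← Real.rpow_intCast, Real.rpow_def_of_pos hx2]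
            norm_num
    have e3 : W x ≤ 2 * ((x : ℝ) + 2) ^ (2 : ℤ) := by
      have e : ((x : ℝ) + 2) ^ (2 : ℤ) = ((x : ℝ) + 2) ^ (2 : ℕ) := by norm_cast
      rw [e]
      exact hW2 x
    calc (49 / 50 : ℝ) ^ (ℓ x) * W x ≤ ((x : ℝ) + 2) ^ (-4 : ℤ) * (2 * ((x : ℝ) + 2) ^ (2 : ℤ)) :=
          mul_le_mul e2 e3 (hW0 x) (by positivity)
      _ = 2 * ((x : ℝ) + 2) ^ (-2 : ℤ) := by
          rw [show (-2 : ℤ) = -4 + 2 by norm_num, zpow_add₀ hx2.ne']
          ring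
  have hsum : ∑' x : ℕ, (Measure.infinitePi fun n => unif (L n)) {ω | Dist f (ℓ x) x ω} ≠ ∞ := by
    refine ne_top_of_le_ne_top ?_ (ENNReal.tsum_le_tsum hbound)
    rw [ENNReal.tsum_mul_left]
    refine ENNReal.mul_ne_top (ENNReal.pow_ne_top hκtop) ?_
    have hs : Summable fun x : ℕ => 2 * ((x : ℝ) + 2) ^ (-2 : ℤ) := by
      have h3 : Summable fun n : ℕ => 1 / (n : ℝ) ^ 2 := Real.summable_one_div_nat_pow.2 (by norm_num)
      have h4 := ((summable_nat_add_iff 2).2 h3).mul_left 2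
      refine h4.congr fun n => ?_
      rw [zpow_neg]
      push_cast
      norm_cast
      rw [one_div]
    exact hs.tsum_ofReal_ne_top
  filter_upwards [ae_eventually_notMem hsum] with ω hω
  obtain ⟨N, hN⟩ := eventually_atTop.1 hω
  obtain ⟨C, hC⟩ := det (f := f) (ω := ω) (ℓ := ℓ) (N := N) (fun x hx => hN x hx)
  refine ⟨C + 1, fun x => ⟨(hC x).1, ?_⟩⟩
  have h3 : ((Set.range fun i : ℕ => (stp f ω)^[i] x).ncard : ℝ) ≤ (ℓ x : ℝ) + C := by exact_mod_cast (hC x).2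
  have h4 : (0 : ℝ) ≤ Real.log ((x : ℝ) + 2) := Real.log_nonneg (by have : (0 : ℝ) ≤ x := Nat.cast_nonneg _; linarith)
  have h5 : (ℓ x : ℝ) < 200 * Real.log ((x : ℝ) + 2) + 1 := Nat.ceil_lt_add_one (by positivity)
  push_cast
  linarith

/-- the juggler map -/
noncomputable def J (n : ℕ) : ℕ := if n % 2 = 0 then ⌊(n : ℝ) ^ (1 / 2 : ℝ)⌋₊ else ⌊(n : ℝ) ^ (3 / 2 : ℝ)⌋₊

/-- the exponent -/
noncomputable def ex (n : ℕ) : ℝ := if n % 2 = 0 then 1 / 2 else 3 / 2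

theorem ex_bd (n : ℕ) : 1 / 2 ≤ ex n ∧ ex n ≤ 3 / 2 := by
  unfold ex
  split_ifs <;> norm_num

theorem J_le (n : ℕ) : (J n : ℝ) ≤ (n : ℝ) ^ (ex n) := by
  unfold J ex
  split_ifs
  · exact Nat.floor_le (by positivity)
  · exact Nat.floor_le (by positivity)

/-- the potential -/
noncomputable def W (n : ℕ) : ℝ := 1 + Real.sqrt (ex n * Real.log n)

theorem W_one (n : ℕ) : 1 ≤ W n := by
  unfold W
  have := Real.sqrt_nonneg (ex n * Real.log n)
  linarith

theorem log_nat_nonneg (n : ℕ) : 0 ≤ Real.log (n : ℝ) := Real.log_natCast_nonneg n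

theorem W_two (x : ℕ) : W x ≤ 2 * ((x : ℝ) + 2) ^ (2 : ℕ) := by
  unfold W
  have h0 : (0 : ℝ) ≤ x := Nat.cast_nonneg _
  have h1 : Real.log (x : ℝ) ≤ x := Real.log_le_self h0
  have h2 := ex_bd x
  have h3 : ex x * Real.log x ≤ 3 / 2 * x := by
    calc ex x * Real.log x ≤ 3 / 2 * Real.log x := mul_le_mul_of_nonneg_right h2.2 (log_nat_nonneg x)
      _ ≤ 3 / 2 * x := by linarith
  have h4 : Real.sqrt (ex x * Real.log x) ≤ 3 / 2 * x + 1 := by
    rw [Real.sqrt_le_left (by positivity)]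
    nlinarith
  nlinarith

theorem sqrt_half : Real.sqrt (1 / 2) ≤ 0.7072 := by
  rw [Real.sqrt_le_left (by norm_num)]
  norm_num

theorem sqrt_three_half : Real.sqrt (3 / 2) ≤ 1.2248 := by
  rw [Real.sqrt_le_left (by norm_num)]
  norm_num

theorem W_next {x y : ℕ} (hx : 1 ≤ x) (hy : y ≤ J x + 1) :
    W y ≤ 1 + Real.sqrt (ex y) * (Real.sqrt (ex x * Real.log x) + 1) := by
  unfold W
  have hx1 : (1 : ℝ) ≤ x := by exact_mod_cast hx
  have ht0 : 0 ≤ ex x * Real.log x := mul_nonneg (by linarith [(ex_bd x).1]) (log_nat_nonneg x)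
  have hp1 : (1 : ℝ) ≤ (x : ℝ) ^ (ex x) := Real.one_le_rpow hx1 (by linarith [(ex_bd x).1])
  have hlog : Real.log y ≤ ex x * Real.log x + 1 := by
    rcases Nat.eq_zero_or_pos y with rfl | hy0
    · simp only [Nat.cast_zero, Real.log_zero]
      linarith
    · have h1 : (y : ℝ) ≤ 2 * (x : ℝ) ^ (ex x) := by
        have : (y : ℝ) ≤ (J x : ℝ) + 1 := by exact_mod_cast hy
        have := J_le x
        linarith
      calc Real.log y ≤ Real.log (2 * (x : ℝ) ^ (ex x)) := Real.log_le_log (by exact_mod_cast hy0) h1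
        _ = Real.log 2 + ex x * Real.log x := by
            rw [Real.log_mul (by norm_num) (by positivity), Real.log_rpow (by linarith)]
        _ ≤ ex x * Real.log x + 1 := by
            have := Real.log_two_lt_d9
            linarith
  have h2 : Real.sqrt (ex y * Real.log y) ≤ Real.sqrt (ex y) * Real.sqrt (ex x * Real.log x + 1) := by
    rw [← Real.sqrt_mul (by linarith [(ex_bd y).1])]
    exact Real.sqrt_le_sqrt (mul_le_mul_of_nonneg_left hlog (by linarith [(ex_bd y).1]))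
  have h3 : Real.sqrt (ex x * Real.log x + 1) ≤ Real.sqrt (ex x * Real.log x) + 1 := by
    rw [Real.sqrt_le_left (by positivity)]
    have := Real.sq_sqrt ht0
    nlinarith [Real.sqrt_nonneg (ex x * Real.log x)]
  have h4 := mul_le_mul_of_nonneg_left h3 (Real.sqrt_nonneg (ex y))
  linarith

theorem driftJ {x : ℕ} (hx : ⌈Real.exp 11000⌉₊ ≤ x) :
    ∑ u ∈ range 2, W (J x + u) ≤ ((2 : ℕ) : ℝ) * (49 / 50 * W x) := by
  have h1 : Real.exp 11000 ≤ x := (Nat.le_ceil _).trans (by exact_mod_cast hx)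
  have h2 : (11000 : ℝ) ≤ Real.log x := by
    rw [Real.le_log_iff_exp_le (lt_of_lt_of_le (Real.exp_pos _) h1)]
    exact h1
  have hx1 : 1 ≤ x := by
    have : (1 : ℝ) ≤ x := le_trans (Real.one_le_exp (by norm_num)) h1
    exact_mod_cast this
  have ht : (5500 : ℝ) ≤ ex x * Real.log x := by
    have := (ex_bd x).1
    nlinarith
  set r : ℝ := Real.sqrt (ex x * Real.log x) with hr
  have hr1 : 73 ≤ r := by
    rw [hr]
    refine Real.le_sqrt_of_sq_le ?_
    linarith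
  have a1 := W_next hx1 (show J x + 0 ≤ J x + 1 by omega)
  have a2 := W_next hx1 (show J x + 1 ≤ J x + 1 by omega)
  rw [← hr] at a1 a2
  have hs : Real.sqrt (ex (J x + 0)) + Real.sqrt (ex (J x + 1)) ≤ 1.932 := by
    have b1 := sqrt_half
    have b2 := sqrt_three_half
    unfold ex
    rcases Nat.mod_two_eq_zero_or_one (J x) with h | h
    · rw [if_pos (by omega), if_neg (by omega)]
      linarith
    · rw [if_neg (by omega), if_pos (by omega)]
      linarith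
  rw [Finset.sum_range_succ, Finset.sum_range_succ, Finset.sum_range_zero, zero_add]
  have e : W x = 1 + r := rfl
  rw [e]
  push_cast
  have h5 : (Real.sqrt (ex (J x + 0)) + Real.sqrt (ex (J x + 1))) * (r + 1) ≤ 1.932 * (r + 1) :=
    mul_le_mul_of_nonneg_right hs (by linarith)
  have h6 : W (J x + 0) + W (J x + 1) ≤ 2 + (Real.sqrt (ex (J x + 0)) + Real.sqrt (ex (J x + 1))) * (r + 1) := by
    linarith
  linarith

/-- **Randomly perturbed juggler sequences are finite.** -/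
theorem jug : ∀ᵐ ω ∂(Measure.infinitePi fun _ : ℕ => unif 2), ∃ C : ℕ, ∀ x : ℕ,
      (Set.range fun i : ℕ => (stp J ω)^[i] x).Finite ∧
      ((Set.range fun i : ℕ => (stp J ω)^[i] x).ncard : ℝ) ≤ 200 * Real.log (x + 2) + C :=
  gen J W W_one W_two (fun _ => 2) (fun _ => by norm_num) ⌈Real.exp 11000⌉₊ (fun _ hx => driftJ hx)

end Pool.Agent.U762.AQ
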