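import Mathlib

set_option autoImplicit false

/-!
# Randomly perturbed maps of the positive integers: from the random environment to the annealed chain
-/

open Finset MeasureTheory Filter
open scoped ENNReal

namespace Pool.Agent.U762.AQ

/-- the perturbed map in the environment `ω` -/
def stp (f : ℕ → ℕ) (ω : ℕ → ℕ) (x : ℕ) : ℕ := f x + ω x

/-- the first `L + 1` terms are different -/
def Dist (f : ℕ → ℕ) (L x : ℕ) (ω : ℕ → ℕ) : Prop :=
  ∀ i j : ℕ, i < j → j ≤ L → (stp f ω)^[i] x ≠ (stp f ω)^[j] x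

/-- the number of the first `L` terms below `M` -/
def cnt (f : ℕ → ℕ) (M L x : ℕ) (ω : ℕ → ℕ) : ℕ := ∑ i ∈ range L, if (stp f ω)^[i] x < M then 1 else 0

theorem cnt_succ (f : ℕ → ℕ) (M L x : ℕ) (ω : ℕ → ℕ) :
    cnt f M (L + 1) x ω = cnt f M L (f x + ω x) ω + if x < M then 1 else 0 := by
  unfold cnt
  rw [Finset.sum_range_succ']
  rfl

theorem cnt_le {f : ℕ → ℕ} (M : ℕ) {L x : ℕ} {ω : ℕ → ℕ} (h : Dist f L x ω) : cnt f M L x ω ≤ M := by
  unfold cnt
  rw [← Finset.card_filter]
  have h1 : ((range L).filter fun i => (stp f ω)^[i] x < M).card ≤ (range M).card := by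
    refine Finset.card_le_card_of_injOn (fun i => (stp f ω)^[i] x) ?_ ?_
    · intro i hi
      have := (Finset.mem_filter.1 (Finset.mem_coe.1 hi)).2
      exact Finset.mem_coe.2 (Finset.mem_range.2 this)
    · intro i hi j hj hij
      have hi' := Finset.mem_range.1 (Finset.mem_filter.1 (Finset.mem_coe.1 hi)).1
      have hj' := Finset.mem_range.1 (Finset.mem_filter.1 (Finset.mem_coe.1 hj)).1
      rcases lt_trichotomy i j with hlt | heq | hgt
      · exact absurd hij (h i j hlt hj'.le)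
      · exact heq
      · exact absurd hij.symm (h j i hgt hi'.le)
  simpa using h1

theorem main (f : ℕ → ℕ) (μ : ℕ → Measure ℕ) [∀ x, IsProbabilityMeasure (μ x)] (B : ℕ → ℕ)
    (hB : ∀ x, μ x {u : ℕ | B x ≤ u} = 0) (M : ℕ) (V : ℕ → ℝ≥0∞) (hV : ∀ x, 1 ≤ V x) (lam κ : ℝ≥0∞) (hκ : 1 ≤ κ)
    (h1 : ∀ x, M ≤ x → ∑ u ∈ range (B x), μ x {u} * V (f x + u) ≤ lam * V x)
    (h2 : ∀ x, ∑ u ∈ range (B x), μ x {u} * V (f x + u) ≤ κ * lam * V x) (L : ℕ) :
    ∀ (j : ℕ) (A : Finset ℕ) (v : ℕ → ℕ) (x : ℕ),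
      (Measure.infinitePi μ)
        {ω | (∀ a ∈ A, ω a = v a) ∧ (∀ i : ℕ, i ≤ L → (stp f ω)^[i] x ∉ A) ∧ Dist f L x ω ∧ cnt f M L x ω ≤ j} ≤
      (∏ a ∈ A, μ a {v a}) * (κ ^ j * lam ^ L * V x) := by
  induction L with
  | zero =>
    intro j A v x
    have hsub : {ω : ℕ → ℕ | (∀ a ∈ A, ω a = v a) ∧
        (∀ i : ℕ, i ≤ 0 → (stp f ω)^[i] x ∉ A) ∧ Dist f 0 x ω ∧ cnt f M 0 x ω ≤ j} ⊆
        Set.pi (A : Set ℕ) (fun a => {v a}) := by
      rintro ω ⟨h1, -, -⟩ a ha
      exact h1 a ha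
    refine (measure_mono hsub).trans ?_
    rw [Measure.infinitePi_pi _ (fun i _ => measurableSet_singleton _)]
    refine le_mul_of_one_le_right zero_le ?_
    rw [pow_zero, mul_one]
    calc (1 : ℝ≥0∞) = 1 * 1 := by rw [mul_one]
      _ ≤ κ ^ j * V x := mul_le_mul' (one_le_pow₀ hκ) (hV x)
  | succ L ih =>
    intro j A v x
    by_cases hxA : x ∈ A
    · have he : {ω : ℕ → ℕ | (∀ a ∈ A, ω a = v a) ∧
          (∀ i : ℕ, i ≤ L + 1 → (stp f ω)^[i] x ∉ A) ∧ Dist f (L + 1) x ω ∧ cnt f M (L + 1) x ω ≤ j} = ∅ := by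
        ext ω
        simp only [Set.mem_ofPred_eq, Set.mem_empty_iff_false, iff_false]
        rintro ⟨-, hA, -⟩
        exact hA 0 (Nat.zero_le _) hxA
      rw [he, measure_empty]
      exact zero_le
    -- the general step with `j'` allowed visits afterwards
    have step : ∀ j' : ℕ, (∀ ω : ℕ → ℕ, cnt f M (L + 1) x ω ≤ j → cnt f M L (f x + ω x) ω ≤ j') →
        κ ^ j' * lam ^ L * ∑ u ∈ range (B x), μ x {u} * V (f x + u) ≤ κ ^ j * lam ^ (L + 1) * V x →
        (Measure.infinitePi μ)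
          {ω | (∀ a ∈ A, ω a = v a) ∧ (∀ i : ℕ, i ≤ L + 1 → (stp f ω)^[i] x ∉ A) ∧ Dist f (L + 1) x ω ∧
            cnt f M (L + 1) x ω ≤ j} ≤
        (∏ a ∈ A, μ a {v a}) * (κ ^ j * lam ^ (L + 1) * V x) := by
      intro j' hj' hs
      have hsub : {ω : ℕ → ℕ | (∀ a ∈ A, ω a = v a) ∧
          (∀ i : ℕ, i ≤ L + 1 → (stp f ω)^[i] x ∉ A) ∧ Dist f (L + 1) x ω ∧ cnt f M (L + 1) x ω ≤ j} ⊆
        {ω | B x ≤ ω x} ∪ ⋃ u ∈ range (B x),
          {ω | (∀ a ∈ insert x A, ω a = Function.update v x u a) ∧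
            (∀ i : ℕ, i ≤ L → (stp f ω)^[i] (f x + u) ∉ insert x A) ∧
            Dist f L (f x + u) ω ∧ cnt f M L (f x + u) ω ≤ j'} := by
        rintro ω ⟨h1, h2, h4, h5⟩
        by_cases hb : B x ≤ ω x
        · exact Or.inl hb
        right
        simp only [Set.mem_iUnion]
        have hs : ∀ i : ℕ, (stp f ω)^[i] (f x + ω x) = (stp f ω)^[i + 1] x := by
          intro i
          rw [Function.iterate_succ_apply]; rfl
        refine ⟨ω x, Finset.mem_range.2 (not_le.1 hb), ?_, ?_, ?_, hj' ω h5⟩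
        · intro a ha
          rcases Finset.mem_insert.1 ha with rfl | ha
          · rw [Function.update_self]
          · rw [Function.update_of_ne (ne_of_mem_of_not_mem ha hxA)]
            exact h1 a ha
        · intro i hi
          rw [hs, Finset.mem_insert, not_or]
          refine ⟨fun h => h4 0 (i + 1) (Nat.succ_pos _) (by omega) ?_, h2 (i + 1) (by omega)⟩
          rw [h]; rfl
        · intro i k hik hk
          rw [hs, hs]
          exact h4 (i + 1) (k + 1) (by omega) (by omega)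
      refine (measure_mono hsub).trans ?_
      refine (measure_union_le _ _).trans ?_
      have h0 : (Measure.infinitePi μ) {ω : ℕ → ℕ | B x ≤ ω x} = 0 := by
        have hp : {ω : ℕ → ℕ | B x ≤ ω x} =
            Set.pi (({x} : Finset ℕ) : Set ℕ) (fun _ => {u : ℕ | B x ≤ u}) := by
          ext ω
          simp
        rw [hp, Measure.infinitePi_pi _ (fun i _ => MeasurableSet.of_discrete)]
        simp [hB]
      rw [h0, zero_add]
      refine (measure_biUnion_finset_le _ _).trans ?_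
      refine (Finset.sum_le_sum fun u _ => ih j' (insert x A) (Function.update v x u) (f x + u)).trans ?_
      refine le_trans (le_of_eq ?_) (mul_le_mul' le_rfl hs)
      rw [Finset.mul_sum, Finset.mul_sum]
      refine Finset.sum_congr rfl fun u _ => ?_
      rw [Finset.prod_insert hxA, Function.update_self]
      have hpr : ∏ a ∈ A, μ a {Function.update v x u a} = ∏ a ∈ A, μ a {v a} := by
        refine Finset.prod_congr rfl fun a ha => ?_
        rw [Function.update_of_ne (ne_of_mem_of_not_mem ha hxA)]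
      rw [hpr]
      ring
    by_cases hxM : x < M
    · rcases Nat.eq_zero_or_pos j with rfl | hj
      · have he : {ω : ℕ → ℕ | (∀ a ∈ A, ω a = v a) ∧
            (∀ i : ℕ, i ≤ L + 1 → (stp f ω)^[i] x ∉ A) ∧ Dist f (L + 1) x ω ∧ cnt f M (L + 1) x ω ≤ 0} = ∅ := by
          ext ω
          simp only [Set.mem_ofPred_eq, Set.mem_empty_iff_false, iff_false]
          rintro ⟨-, -, -, hc⟩
          rw [cnt_succ, if_pos hxM] at hc
          omega
        rw [he, measure_empty]
        exact zero_le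
      · obtain ⟨j', rfl⟩ : ∃ j', j = j' + 1 := ⟨j - 1, by omega⟩
        refine step j' (fun ω h => ?_) ?_
        · rw [cnt_succ, if_pos hxM] at h
          omega
        · calc κ ^ j' * lam ^ L * ∑ u ∈ range (B x), μ x {u} * V (f x + u)
              ≤ κ ^ j' * lam ^ L * (κ * lam * V x) := mul_le_mul' le_rfl (h2 x)
            _ = κ ^ (j' + 1) * lam ^ (L + 1) * V x := by ring
    · refine step j (fun ω h => ?_) ?_
      · rw [cnt_succ, if_neg hxM] at h
        omega
      · calc κ ^ j * lam ^ L * ∑ u ∈ range (B x), μ x {u} * V (f x + u)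
            ≤ κ ^ j * lam ^ L * (lam * V x) := mul_le_mul' le_rfl (h1 x (not_lt.1 hxM))
          _ = κ ^ j * lam ^ (L + 1) * V x := by ring

/-- the probability that the first `L + 1` terms are different -/
theorem dist_le (f : ℕ → ℕ) (μ : ℕ → Measure ℕ) [∀ x, IsProbabilityMeasure (μ x)] (B : ℕ → ℕ)
    (hB : ∀ x, μ x {u : ℕ | B x ≤ u} = 0) (M : ℕ) (V : ℕ → ℝ≥0∞) (hV : ∀ x, 1 ≤ V x) (lam κ : ℝ≥0∞) (hκ : 1 ≤ κ)
    (h1 : ∀ x, M ≤ x → ∑ u ∈ range (B x), μ x {u} * V (f x + u) ≤ lam * V x)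
    (h2 : ∀ x, ∑ u ∈ range (B x), μ x {u} * V (f x + u) ≤ κ * lam * V x) (L x : ℕ) :
    (Measure.infinitePi μ) {ω | Dist f L x ω} ≤ κ ^ M * lam ^ L * V x := by
  have h := main f μ B hB M V hV lam κ hκ h1 h2 L M ∅ (fun _ => 0) x
  refine le_trans (measure_mono ?_) (h.trans (by simp))
  intro ω hω
  exact ⟨by simp, by simp, hω, cnt_le M hω⟩

/-- an orbit with a repetition -/
theorem orbit_of_repeat {g : ℕ → ℕ} {x i j : ℕ} (hij : i < j) (h : g^[i] x = g^[j] x) :
    (Set.range fun n : ℕ => g^[n] x) ⊆ ((range j).image fun n => g^[n] x : Finset ℕ) := by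
  rintro _ ⟨n, rfl⟩
  induction n using Nat.strong_induction_on with
  | _ n ih =>
    by_cases hn : n < j
    · exact Finset.mem_coe.2 (Finset.mem_image.2 ⟨n, Finset.mem_range.2 hn, rfl⟩)
    · have e : g^[n] x = g^[n - j + i] x := by
        conv_lhs => rw [show n = n - j + j by omega, Function.iterate_add_apply, ← h]
        rw [← Function.iterate_add_apply]
      have := ih (n - j + i) (by omega)
      simp only at this ⊢
      rw [e]
      exact this

/-- deterministic end game: if for all but finitely many `x` the first `ℓ x + 1` terms are not different, then all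
orbits are finite, with at most `ℓ x + C` elements. -/
theorem det {f : ℕ → ℕ} {ω : ℕ → ℕ} {ℓ : ℕ → ℕ} {N : ℕ} (h : ∀ x, N ≤ x → ¬ Dist f (ℓ x) x ω) :
    ∃ C : ℕ, ∀ x, (Set.range fun i : ℕ => (stp f ω)^[i] x).Finite ∧
      (Set.range fun i : ℕ => (stp f ω)^[i] x).ncard ≤ ℓ x + C := by
  have big : ∀ x, N ≤ x → (Set.range fun i : ℕ => (stp f ω)^[i] x).Finite ∧
      (Set.range fun i : ℕ => (stp f ω)^[i] x).ncard ≤ ℓ x := by
    intro x hx
    have h1 := h x hx
    unfold Dist at h1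
    push Not at h1
    obtain ⟨i, j, hij, hj, he⟩ := h1
    have hs := orbit_of_repeat hij he
    refine ⟨(Finset.finite_toSet _).subset hs, ?_⟩
    refine (Set.ncard_le_ncard hs (Finset.finite_toSet _)).trans ?_
    rw [Set.ncard_coe_finset]
    exact (Finset.card_image_le).trans (by rw [Finset.card_range]; exact hj)
  have fin : ∀ x, (Set.range fun i : ℕ => (stp f ω)^[i] x).Finite := by
    intro x
    by_contra hinf
    have hinf' : (Set.range fun i : ℕ => (stp f ω)^[i] x).Infinite := hinf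
    obtain ⟨y, ⟨k, rfl⟩, hy⟩ := hinf'.exists_gt N
    have h2 := (big _ hy.le).1
    refine hinf ?_
    have hsub : (Set.range fun i : ℕ => (stp f ω)^[i] x) ⊆
        ((range k).image (fun n => (stp f ω)^[n] x) : Finset ℕ) ∪
          (Set.range fun i : ℕ => (stp f ω)^[i] ((stp f ω)^[k] x)) := by
      rintro _ ⟨n, rfl⟩
      by_cases hn : n < k
      · exact Or.inl (Finset.mem_coe.2 (Finset.mem_image.2 ⟨n, Finset.mem_range.2 hn, rfl⟩))
      · refine Or.inr ⟨n - k, ?_⟩
        simp only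
        rw [← Function.iterate_add_apply, show n - k + k = n by omega]
    exact ((Finset.finite_toSet _).union h2).subset hsub
  refine ⟨∑ x ∈ range N, (Set.range fun i : ℕ => (stp f ω)^[i] x).ncard, fun x => ⟨fin x, ?_⟩⟩
  by_cases hx : N ≤ x
  · exact (big x hx).2.trans (Nat.le_add_right _ _)
  · have := Finset.single_le_sum (f := fun x => (Set.range fun i : ℕ => (stp f ω)^[i] x).ncard)
      (fun i _ => Nat.zero_le _) (Finset.mem_range.2 (not_le.1 hx))
    omega

end Pool.Agent.U762.AQ
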